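import Pool.Agent.H651.RN.Baire

/-!
# A computable instance of the Ramsey-type weak König's lemma which is generically universal
-/

set_option autoImplicit false

namespace Pool.Agent.H651.RU

open Encodable Denumerable
open Nat.Partrec (Code)
open Pool.Agent.H651.RN

/-- the tree number `e` has a string of length `k` -/
def Alive (e k : ℕ) : Prop := ∃ τ ∈ strs k, TT e τ

/-- the first `k` entries of the column `e` of `σ` -/
def colk (e k : ℕ) (σ : List Bool) : List Bool :=
  (List.range k).map fun i => σ.getD (Nat.pair e i) false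

/-- the product of all trees -/
def XX (σ : List Bool) : Prop :=
  ∀ e < σ.length + 1, ∀ k < σ.length + 1, Nat.pair e k < σ.length + 1 → Alive e k →
    TT e (colk e k σ)

lemma pp_Alive : PrimrecPred fun p : ℕ × ℕ => Alive p.1 p.2 :=
  pp_ex (primrec_strs.comp Primrec.snd) (pp_TT' (Primrec.fst.comp Primrec.fst) Primrec.snd)

lemma pr_colk : Primrec fun p : (ℕ × ℕ) × List Bool => colk p.1.1 p.1.2 p.2 := by
  refine Primrec.list_map (Primrec.list_range.comp (Primrec.snd.comp Primrec.fst)) ?_
  exact (Primrec.list_getD false).comp (Primrec.snd.comp Primrec.fst)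
    (Primrec₂.natPair.comp (Primrec.fst.comp (Primrec.fst.comp Primrec.fst)) Primrec.snd)

lemma pp_XX : PrimrecPred XX := by
  refine pp_allLt (Primrec.succ.comp Primrec.list_length) ?_
  refine pp_allLt (Primrec.succ.comp (Primrec.list_length.comp Primrec.fst)) ?_
  refine pp_imp ?_ (pp_imp ?_ ?_)
  · exact Primrec.nat_lt.comp (Primrec₂.natPair.comp (Primrec.snd.comp Primrec.fst) Primrec.snd)
      (Primrec.succ.comp (Primrec.list_length.comp (Primrec.fst.comp Primrec.fst)))
  · exact pp_Alive.comp (Primrec.pair (Primrec.snd.comp Primrec.fst) Primrec.snd)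
  · exact pp_TT' (Primrec.snd.comp Primrec.fst) (pr_colk.comp
      (Primrec.pair (Primrec.pair (Primrec.snd.comp Primrec.fst) Primrec.snd)
        (Primrec.fst.comp Primrec.fst)))

lemma colk_prefix {σ τ : List Bool} (h : σ <+: τ) {e k : ℕ} (hk : Nat.pair e k ≤ σ.length) :
    colk e k τ = colk e k σ := by
  unfold colk
  refine List.map_congr_left fun i hi => ?_
  have h1 : Nat.pair e i < Nat.pair e k := Nat.pair_lt_pair_right e (List.mem_range.1 hi)
  exact getD_prefix h (x := Nat.pair e i) (by omega)

lemma XX_prefix {σ τ : List Bool} (h : σ <+: τ) (hτ : XX τ) : XX σ := by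
  intro e he k hk hp ha
  have hl := h.length_le
  rw [← colk_prefix h (by omega)]
  exact hτ e (by omega) k (by omega) (by omega) ha

/-- the paths of the factor number `e` -/
def PathZ (e : ℕ) (g : ℕ → Bool) : Prop := ∀ k, Alive e k → TT e (res g k)

lemma colk_res (f : ℕ → Bool) {e k n : ℕ} (h : Nat.pair e k ≤ n) :
    colk e k (res f n) = res (fun i => f (Nat.pair e i)) k := by
  unfold colk
  show _ = (List.range k).map _
  refine List.map_congr_left fun i hi => ?_
  have h1 : Nat.pair e i < Nat.pair e k := Nat.pair_lt_pair_right e (List.mem_range.1 hi)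
  rw [res_getD _ (by omega)]

lemma path_iff {f : ℕ → Bool} : Path XX f ↔ ∀ e, PathZ e fun i => f (Nat.pair e i) := by
  constructor
  · intro h e k ha
    have h1 := h (Nat.pair e k) e (by simpa using Nat.lt_succ_of_le (Nat.left_le_pair e k)) k
      (by simpa using Nat.lt_succ_of_le (Nat.right_le_pair e k)) (by simp) ha
    rwa [colk_res f le_rfl] at h1
  · intro h n e he k hk hp ha
    rw [res_length] at hp
    rw [colk_res f (by omega)]
    exact h e k ha

lemma alive_mono {e k k' : ℕ} (h : k ≤ k') (ha : Alive e k') : Alive e k := by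
  obtain ⟨τ, hτ, ht⟩ := ha
  refine ⟨τ.take k, mem_strs.2 ?_, TT_prefix (List.take_prefix k τ) ht⟩
  rw [List.length_take, mem_strs.1 hτ]
  exact min_eq_left h

lemma pathZ_exists (e : ℕ) : ∃ g, PathZ e g := by
  classical
  by_cases hall : ∀ k, Alive e k
  · obtain ⟨g, hg⟩ := konig (S := TT e) (fun n => by
      obtain ⟨τ, h1, h2⟩ := hall n
      exact ⟨τ, h2, (mem_strs.1 h1).ge⟩)
    refine ⟨g, fun k _ => ?_⟩
    obtain ⟨σ, h1, _, h3⟩ := hg k 0
    exact TT_prefix h3 h1
  · push Not at hall
    have hmin := Nat.find_spec hall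
    obtain ⟨N, hN⟩ : ∃ N, Nat.find hall = N := ⟨_, rfl⟩
    rcases N with _ | k0
    · refine ⟨fun _ => false, fun k hk => ?_⟩
      rw [hN] at hmin
      exact absurd (alive_mono (Nat.zero_le k) hk) hmin
    · have hk0 : Alive e k0 := by
        by_contra h
        exact Nat.find_min hall (m := k0) (by omega) h
      obtain ⟨τ, h1, h2⟩ := hk0
      refine ⟨fun x => τ.getD x false, fun k hk => ?_⟩
      have hkk : k ≤ k0 := by
        by_contra h
        rw [hN] at hmin
        exact hmin (alive_mono (by omega) hk)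
      have h3 : res (fun x => τ.getD x false) k = τ.take k := by
        refine eq_of_getD (n := k) (by simp) ?_ fun x hx => ?_
        · rw [List.length_take, mem_strs.1 h1]
          exact min_eq_left hkk
        · rw [res_getD _ hx]
          simp [List.getD_eq_getElem?_getD, hx]
      rw [h3]
      exact TT_prefix (List.take_prefix k τ) h2

lemma XX_path : ∃ f, Path XX f := by
  choose g hg using pathZ_exists
  refine ⟨fun x => g x.unpair.1 x.unpair.2, path_iff.2 fun e => ?_⟩
  have : (fun i => g (Nat.pair e i).unpair.1 (Nat.pair e i).unpair.2) = g e := by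
    funext i
    simp
  rw [this]
  exact hg e

/-- the index `e` is an index of the complement `B` of a tree -/
lemma path_TT {B : List Bool → Prop} {e : ℕ}
    (h : ∀ σ, B σ ↔ ∃ k, (Code.evaln k (dec e).1 (encode σ)).isSome = true) (f : ℕ → Bool) :
    Path (TT e) f ↔ ∀ n, ¬ B (res f n) := by
  constructor
  · intro hp n hB
    obtain ⟨k, hk⟩ := (h _).1 hB
    refine hp (max k n) n (by rw [res_length]; exact Nat.lt_succ_of_le (le_max_right _ _)) ?_
    rw [res_length, res_take f (le_max_right k n)]
    obtain ⟨v, hv⟩ := Option.isSome_iff_exists.1 hk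
    have := Code.evaln_mono (le_max_left k n) (Option.mem_def.2 hv)
    rw [Option.mem_def.1 this]; rfl
  · intro hB n t ht hs
    rw [res_length] at ht hs
    rw [res_take f (by omega)] at hs
    exact hB t ((h _).2 ⟨n, hs⟩)

lemma alive_of_path {e : ℕ} {f : ℕ → Bool} (h : Path (TT e) f) (k : ℕ) : Alive e k :=
  ⟨res f k, res_mem f k, h k⟩

/-- solutions and paths -/
lemma path_of_sol {X : List Bool → Prop} (hX : ∀ σ τ : List Bool, σ <+: τ → X τ → X σ)
    {H : ℕ → Bool} {c : Bool}
    (h : {σ : List Bool | X σ ∧ ∀ i, H i = true → ∀ b : Bool, σ[i]? = some b → b = c}.Infinite) :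
    ∃ f, Path X f ∧ ∀ x, H x = true → f x = c := by
  obtain ⟨f, hf⟩ := konig (exists_long h)
  refine ⟨f, fun n => ?_, fun x hx => ?_⟩
  · obtain ⟨σ, h1, _, h3⟩ := hf n 0
    exact hX _ _ h3 h1.1
  · obtain ⟨σ, h1, _, h3⟩ := hf (x + 1) 0
    refine h1.2 x hx _ ?_
    have hl := h3.length_le
    rw [res_length] at hl
    have h4 := getD_prefix h3 (x := x) (by rw [res_length]; exact Nat.lt_succ_self x)
    rw [res_getD _ (Nat.lt_succ_self x)] at h4
    rw [← h4, List.getD_eq_getElem _ _ (by omega)]
    exact List.getElem?_eq_getElem _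

/-- the numbers of the trees whose paths are not eventually constant -/
def EE : Set ℕ := {e | (∃ f, Path (TT e) f) ∧
  ∀ (n : ℕ) (f : ℕ → Bool) (d : Bool), Path (TT e) f → ¬ ∀ i, n ≤ i → f i = d}

/-- a number of the full tree -/
lemma full_exists : ∃ e0, ∀ σ, TT e0 σ := by
  have hF : PrimrecPred fun _ : List Bool => False :=
    (Primrec.eq.comp (Primrec.const 0) (Primrec.const 1)).of_eq (by simp)
  obtain ⟨c, hc⟩ := re_code hF.computablePred.to_re
  refine ⟨encode ((c, ([], Code.zero)) : Idx), fun σ t _ hs => ?_⟩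
  rw [dec_encode] at hs
  exact (hc _).2 ⟨_, hs⟩

/-- a number of a computable tree -/
lemma index_exists {Y : List Bool → Prop} (hY : ComputablePred Y) :
    ∃ e, ∀ f, Path (TT e) f ↔ Path Y f := by
  obtain ⟨c, hc⟩ := re_code hY.not.to_re
  refine ⟨encode ((c, ([], Code.zero)) : Idx), fun f => ?_⟩
  rw [path_TT (B := fun σ => ¬ Y σ) (fun σ => by rw [dec_encode]; exact hc σ)]
  exact forall_congr' fun n => not_not

lemma inf_val {f : ℕ → Bool} {c : Bool} (h : ∀ n, ¬ ∀ i, n ≤ i → f i = !c) :
    ∀ n, ∃ i, n ≤ i ∧ f i = c := by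
  intro n
  by_contra hne
  push Not at hne
  refine h n fun i hi => ?_
  have := hne i hi
  revert this
  rcases f i with _ | _ <;> rcases c with _ | _ <;> simp

/-- the density of the typical solutions -/
lemma extend {f : ℕ → Bool} (hf : Path XX f) {H : ℕ → Bool} {c : Bool} (m : ℕ)
    (hH : ∀ x < m, H x = true → f x = c) :
    ∃ (f' H' : ℕ → Bool), Path XX f' ∧ (∀ x, H' x = true → f' x = c) ∧ res H' m = res H m ∧
      {x | H' x = true}.Infinite ∧ ∀ e ∈ EE, {i | H' (Nat.pair e i) = true}.Infinite := by
  classical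
  obtain ⟨e0, he0⟩ := full_exists
  let f' : ℕ → Bool := fun x => if m ≤ x ∧ x.unpair.1 = e0 then c else f x
  let H' : ℕ → Bool := fun x => if x < m then H x else decide (f' x = c)
  have hne : ∀ e ∈ EE, e ≠ e0 := by
    rintro e ⟨_, he⟩ rfl
    exact he 0 (fun _ => true) true (fun n => he0 _) fun _ _ => rfl
  refine ⟨f', H', ?_, ?_, ?_, ?_, ?_⟩
  · rw [path_iff] at hf ⊢
    intro e
    by_cases he : e = e0
    · subst he
      exact fun k _ => he0 _
    · have : (fun i => f' (Nat.pair e i)) = fun i => f (Nat.pair e i) := by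
        funext i
        simp [f', he]
      rw [this]
      exact hf e
  · intro x hx
    by_cases hxm : x < m
    · have h1 : H x = true := by simpa [H', hxm] using hx
      have h2 : ¬ (m ≤ x ∧ x.unpair.1 = e0) := fun h => absurd h.1 (not_le.2 hxm)
      show (if m ≤ x ∧ x.unpair.1 = e0 then c else f x) = c
      rw [if_neg h2]
      exact hH x hxm h1
    · have h1 : H' x = decide (f' x = c) := if_neg hxm
      rw [h1] at hx
      exact of_decide_eq_true hx
  · rw [res_eq_iff]
    exact fun x hx => if_pos hx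
  · refine Set.infinite_of_forall_exists_gt fun a => ⟨Nat.pair e0 (max m (a + 1)), ?_, ?_⟩
    · have h1 : m ≤ Nat.pair e0 (max m (a + 1)) :=
        (le_max_left _ _).trans (Nat.right_le_pair _ _)
      show (if Nat.pair e0 (max m (a + 1)) < m then _ else decide (f' _ = c)) = true
      rw [if_neg (not_lt.2 h1)]
      refine decide_eq_true ?_
      show (if _ then c else _) = c
      rw [if_pos ⟨h1, by simp⟩]
    · exact lt_of_lt_of_le (Nat.lt_of_succ_le (le_max_right _ _)) (Nat.right_le_pair _ _)
  · intro e he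
    have hp : Path (TT e) fun i => f (Nat.pair e i) := by
      obtain ⟨g, hg⟩ := he.1
      exact fun k => (path_iff.1 hf) e k (alive_of_path hg k)
    have h1 := inf_val (c := c) fun n => he.2 n _ (!c) hp
    refine Set.infinite_of_forall_exists_gt fun a => ?_
    obtain ⟨i, hi, hic⟩ := h1 (max m (a + 1))
    have him : m ≤ Nat.pair e i := ((le_max_left _ _).trans hi).trans (Nat.right_le_pair _ _)
    refine ⟨i, ?_, lt_of_lt_of_le (Nat.lt_of_succ_le (le_max_right _ _)) hi⟩
    show (if Nat.pair e i < m then _ else decide (f' _ = c)) = true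
    rw [if_neg (not_lt.2 him)]
    refine decide_eq_true ?_
    show (if _ then c else _) = c
    rw [if_neg (by simp [hne e he])]
    exact hic

end Pool.Agent.H651.RU
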